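import Pool.Agent.H9.UZ.Tar
import Pool.Agent.H21.SE.LG1

/-! # AM1: the ground model -/

set_option linter.unusedVariables false

open Ordinal Order Set
open scoped ZFSet

namespace SE.UZ

open SF CAA SE.H21L CAU.UK47

theorem pf_AM1 (hLC : T_LC1) (hDN : T_DN) (hDM : T_DM) (hDH : T_DH) (hDF : T_DF) (hGB : T_GB)
    (hGC : T_GC) (hAC : SE.T_AC) : T_AM1 := by
  intro τ hct hZ
  have k : ZFm (· ∈ LA ∅ τ) := hZ.toZFCm.toZFm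
  obtain ⟨C, hC, gC, cC⟩ := hLC _ hZ.toZFCm
  obtain ⟨μ, hμ⟩ := lvl hDM hDH hDF hGB hZ hC gC
  have gμ : Gd (LA ∅ μ) := hGC μ hμ.lim hμ.ωμ
  obtain ⟨κ, hκ⟩ := lvl hDM hDH hDF hGB hZ hμ.LM gμ
  obtain ⟨a1, a2, a3, a4, a5, a6⟩ := hAC _ k
  obtain ⟨f1, f2, f3, f4, f5, f6, f7, -⟩ := hDF _ k C hC gC
  obtain ⟨g1, g2, g3, g4, g5, g6, g7, -⟩ := hDF _ k (LA ∅ μ) hμ.LM gμ
  -- countable sets are images of `C`
  have hcs : ∀ x, Ctbl (· ∈ LA ∅ τ) x → Sm (· ∈ LA ∅ τ) C x := by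
    rintro x (rfl | ⟨f, hf, ho⟩)
    · exact Or.inl rfl
    · have := f7 om f (f1 om gC.om) hf (svl_of_isFunc ho.1) (dm_eq ho.1)
      rwa [H21L.Onto.rg ho] at this
  -- and conversely
  have hsc : ∀ x, Sm (· ∈ LA ∅ τ) C x → Ctbl (· ∈ LA ∅ τ) x := by
    rintro x (rfl | ⟨f, hf, ho⟩)
    · exact Or.inl rfl
    · have := a6 C f hf (svl_of_isFunc ho.1) cC (by rw [dm_eq ho.1])
      rwa [H21L.Onto.rg ho] at this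
  have hμκ : μ < κ := by
    by_contra hcon
    push Not at hcon
    refine hκ.ns (g2 _ hκ.mem ?_)
    intro x hx
    exact (ord_sub_Lh dn_empty_tr μ).1 (toZFSet_subset_toZFSet_iff.2 hcon hx)
  have hκτ : κ < τ := (ord_LA κ τ).1 hκ.mem
  have hlev : ∀ ρ < τ, ∃ ρ', ρ < ρ' ∧ ρ' < τ ∧ ZFm (· ∈ LA ∅ ρ') := by
    intro ρ hρ
    obtain ⟨μ, h1, h2, h3⟩ := CAU.UK47.level hDM hDH hDF hGB hGC hZ ((ord_LA ρ τ).2 hρ)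
    exact ⟨μ, h1, (ord_LA μ τ).1 h2, h3⟩
  refine ⟨μ, κ, ⟨hZ, hct, fun α => ord_LA α τ, hμ.ωμ, hμκ, hκτ, hμ.lim, hκ.lim, hμ.z, hκ.z,
    fun α => ord_LA α μ, fun α => ord_LA α κ, fun x hx => hsc x (hμ.sx x hx), ?_, ?_, ?_, hμ.el,
    ?_, ?_⟩, fun x hx => hκ.sx x hx, fun y hy f hf hfun => hμ.bf y hy f hf hfun⟩
  · exact fun h => hμ.ns (hcs _ h)
  · intro x hx hs
    exact hμ.bd x (a1 x hx) (hcs x hx) hs
  · exact fun y hy f hf hfun => hκ.bf y hy f hf hfun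
  · exact hDN μ τ hZ.toZFCm hμ.ωμ (hμκ.trans hκτ) hlev hμ.bf hμ.z
  · exact hDN κ τ hZ.toZFCm hκ.ωμ hκτ hlev hκ.bf hκ.z

end SE.UZ
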