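import Pool.Agent.H9.UZ.Tar

/-! # AMB: the ambient context -/

set_option linter.unusedVariables false

open Ordinal Order Set
open scoped ZFSet

namespace SE.UZ

open SF CAA

theorem pf_AMB (hDA : CAA.T_DA) (hG1 : T_AM1) (hG2 : T_LG2) (hA2 : T_LA2) (hB : T_LB)
    (hC2 : T_LC2) (hE : T_LE) (hM4 : T_AM4) (hCOD : T_COD) (hBJ : T_BJ) : T_AMB := by
  obtain ⟨ix, hix⟩ := hDA
  intro τ ctb zfc
  obtain ⟨μ, κ, g2⟩ := hG1 τ ctb zfc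
  have g := g2.g
  obtain ⟨reg, -, -⟩ := hG2 τ μ κ g
  obtain ⟨lk, rl, nc, -⟩ := hC2 ix hix τ μ κ g
  have ok : Cx.Ok ⟨(· ∈ LA ∅ τ), LA ∅ κ, LL ix τ μ, fun _ => ∅⟩ := by
    constructor
    · exact zfc
    · exact ctb
    · exact Lh_mem g.κτ
    · exact g.zκ
    · exact reg
    · exact lk
    · exact rl
    · exact nc
    · intro k E hEN hf hd
      obtain ⟨Z, hZ, cZ, h⟩ := hE ix hix τ μ κ g k E hEN ⟨hf, hd⟩
      exact ⟨Z, hZ, cZ, h⟩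
  refine ⟨LA ∅ κ, LL ix τ μ, μ.toZFSet, ok, ?_, ?_, ?_, ?_, ?_, ?_, ?_⟩
  · exact (g.ordκ μ).2 g.μκ
  · exact ⟨μ, rfl⟩
  · have h0 : (∅ : V) = (0 : Ordinal.{0}).toZFSet := by simp
    rw [h0, toZFSet_mem_toZFSet_iff]
    exact lt_trans omega0_pos g.ωμ
  · intro ξ hξ
    obtain ⟨α, hα, rfl⟩ := mem_toZFSet_iff.1 hξ
    have h1 : insert α.toZFSet α.toZFSet = (succ α).toZFSet := by simp
    rw [h1, toZFSet_mem_toZFSet_iff]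
    exact g.limμ.succ_lt hα
  · intro x hx hs
    obtain ⟨γ, hγ, h⟩ := g.bμ x hx hs
    exact ⟨γ.toZFSet, toZFSet_mem_toZFSet_iff.2 hγ, h⟩
  · exact hM4 τ μ κ g2 _ ok rfl rfl
  · intro ρ hρ hc G hG
    obtain ⟨-, -, -, -, h⟩ := hBJ _ ok
    obtain ⟨⟨hz, h1, h2, h3, h4⟩, -⟩ := (h ρ hρ hc).2 G hG
    obtain ⟨a, ha, ra, h5⟩ := hCOD (ILf ix) (hA2 ix hix).2.2 _ τ (LL ix τ μ) hz
      (fun α => (h4 α).trans (g.ord α)) (hB ix hix τ μ κ g) rl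
    exact ⟨a, ha, ra, h5⟩

end SE.UZ
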