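import Pool.Agent.H9.UZ.Tar

/-! # FA1: from a base system of the form `Pr` to a forcing -/

set_option linter.unusedVariables false

open Ordinal Order Set
open scoped ZFSet

namespace SE.UZ

open SF CAA

namespace H9FA

theorem mem_stf {P : V → Prop} {x : V} (h : x ∈ stf P) : P x ∧ ∀ y, P y → y ∈ stf P := by
  unfold stf at *
  split_ifs at h ⊢ with h1
  · exact ⟨(Classical.choose_spec h1 x).1 h, fun y hy => (Classical.choose_spec h1 y).2 hy⟩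
  · exact absurd h (ZFSet.notMem_empty x)

theorem const_eq (X B : V) : resS X (fun _ => B) = ZFSet.prod X {B} := by
  ext z
  rw [mem_resS, ZFSet.mem_prod]
  constructor
  · rintro ⟨x, hx, rfl⟩
    exact ⟨x, hx, B, ZFSet.mem_singleton.2 rfl, rfl⟩
  · rintro ⟨x, hx, y, hy, rfl⟩
    rw [ZFSet.mem_singleton.1 hy]
    exact ⟨x, hx, rfl⟩

theorem const_mem {N : V → Prop} (hN : ZFm N) {X B : V} (hX : N X) (hB : N B) :
    N (resS X fun _ => B) := by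
  rw [const_eq]
  exact (Tm.prod (Tm.var 0) (Tm.sing (Tm.var 1))).1 N hN (cons X fun _ => B)
    (In.cons (fun _ => hB) hX)

end H9FA

open H9FA

theorem pf_FA1 : T_FA1 := by
  intro D κ hA b hb hP
  have hN : ZFm D.N := hA.ok.zfc.toZFCm.toZFm
  have hHt : ∀ x ∈ D.H, ∀ y ∈ x, y ∈ D.H := hA.ok.zfH.trans
  have hHN : ∀ x ∈ D.H, D.N x := hN.trans _ hA.ok.hN
  have he : (∅ : V) ∈ D.H := hHt κ hA.kH ∅ hA.zero
  obtain ⟨T0, hT0, -⟩ := hP.bd ∅ ∅ ⟨hHN _ he, he, fun v hv => absurd hv (ZFSet.notMem_empty v),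
    fun v hv => absurd hv (ZFSet.notMem_empty v)⟩ ∅ he
  have hNT0 : D.N T0 := hN.trans _ hP.nO _ hT0
  have h1 : ({∅} : V) ∈ D.H := by
    have h2 := hA.ok.zfH.pair ∅ ∅ he he
    have h3 : ({∅, ∅} : V) = {∅} := by ext z; simp
    rwa [h3] at h2
  have ha0 : ∀ v ∈ ({∅} : V), app (resS {∅} fun _ => T0) v = T0 := fun v hv => app_resS hv
  obtain ⟨B, hB, hB2, -⟩ := hP.bd {∅} (resS {∅} fun _ => T0)
    ⟨const_mem hN (hHN _ h1) hNT0, h1, fun v hv => by rw [ha0 v hv]; exact hT0,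
      fun v hv w hw => ⟨T0, by rw [ha0 v hv]; exact hP.rfl T0 hT0,
        by rw [ha0 w hw]; exact hP.rfl T0 hT0, by
          rw [ha0 v hv, ha0 w hw]
          ext z
          simp⟩⟩ ∅ he
  have hNB : D.N B := hN.trans _ hP.nO _ hB
  have h4 := hB2 ∅ (ZFSet.mem_singleton.2 rfl)
  rw [ha0 ∅ (ZFSet.mem_singleton.2 rfl)] at h4
  obtain ⟨⟨C, T, h5, h6, h7⟩, h8⟩ := mem_stf (show ZFSet.pair T0 B ∈ stf _ from h4)
  obtain ⟨rfl, rfl⟩ := ZFSet.pair_injective h7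
  obtain ⟨⟨C', T', h9, h10⟩, -⟩ := mem_stf (show ZFSet.pair B B ∈ stf _ from hP.rfl B hB)
  obtain ⟨rfl, h11⟩ := ZFSet.pair_injective h10
  subst h11
  have hRi : (b.Pr D κ).Ri B B := h8 _ ⟨B, B, h9, h6, rfl⟩
  have haF : ∀ ξ ∈ κ, app (resS κ fun _ => B) ξ = B := fun ξ hξ => app_resS hξ
  have hFN : D.N (resS κ fun _ => B) := const_mem hN (hHN _ hA.kH) hNB
  have hCh : (b.Pr D κ).Ch D κ (resS κ fun _ => B) := by
    refine ⟨hFN, fun ξ hξ => by rw [haF ξ hξ]; exact hB, fun ξ hξ η hη _ => ?_, fun ξ hξ => ?_⟩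
    · rw [haF ξ hξ, haF η hη]
      exact hP.rfl B hB
    · rw [haF ξ hξ, haF _ (hA.suc ξ hξ)]
      exact hRi
  have hun : (b.Pr D κ).un κ (resS κ fun _ => B) = (b.Pr D κ).u B := by
    ext z
    unfold BS.un
    rw [ZFSet.mem_sUnion]
    constructor
    · rintro ⟨y, hy, hz⟩
      obtain ⟨ξ, hξ, rfl⟩ := mem_imS.1 hy
      rwa [haF ξ hξ] at hz
    · intro hz
      exact ⟨_, mem_imS.2 ⟨∅, hA.zero, rfl⟩, by rw [haF ∅ hA.zero]; exact hz⟩
  have hcs := hP.cs B hB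
  refine ⟨(b.Pr D κ).un κ (resS κ fun _ => B), ?_, ?_, fun G hG k hk => ?_⟩
  · rw [hun]
    exact hHN _ hcs.h
  · rw [hun]
    exact hcs.c
  · exact (hP.tru _ hCh G hG).2.2 k hk

end SE.UZ
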