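import Pool.Agent.H9.UZ.Tar

/-! # FAP: from the ambient context to forcing extensions of `L_τ` -/

set_option linter.unusedVariables false

open Ordinal Order Set
open scoped ZFSet

namespace SE.UZ

open SF CAA

/-- FAP: properties of the extensions for a set of labels -/
def T_FAP : Prop := ∀ Φ : (V → Prop) → Prop,
  (∀ (D : Cx) κ, Amb D κ → ∃ Λ, D.N Λ ∧ Cld D.L Λ ∧ ∀ G, D.Gn Λ G → Φ (D.W G)) →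
  ∀ τ : Ordinal.{0}, ((LA ∅ τ : V) : Set V).Countable → ZFC (· ∈ LA ∅ τ) →
    ∃ c ∈ LA ∅ τ, ∃ r ∈ LA ∅ τ, IsPo c r ∧
      ∀ G, Gen (· ∈ LA ∅ τ) c r G → ZFC (Ext (· ∈ LA ∅ τ) G) ∧ Φ (Ext (· ∈ LA ∅ τ) G)

theorem pf_FAP (hAMB : T_AMB) (hBJ : T_BJ) (hBD : T_BD) : T_FAP := by
  intro Φ h τ hc hz
  obtain ⟨H, L, κ, hA⟩ := hAMB τ hc hz
  obtain ⟨Λ, hΛ, hcl, h⟩ := h _ κ hA
  obtain ⟨-, -, -, hPR, hmain⟩ := hBJ _ hA.ok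
  obtain ⟨hP, hR⟩ := hPR Λ hΛ
  refine ⟨Pos L Λ, hP, Odr L Λ, hR, hBD.2.2.2.2.2.2.2 _ _, ?_⟩
  intro G hG
  obtain ⟨⟨hzfc, -⟩, -⟩ := (hmain Λ hΛ hcl).2 G hG
  exact ⟨hzfc, h G hG⟩

end SE.UZ
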