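import Pool.Agent.H9.UZ.Tar
import Pool.Agent.H41.UZ.TN

/-! # FB1: the components of the first base system -/

set_option linter.unusedVariables false

open Ordinal Order Set
open scoped ZFSet

namespace SE.UZ

open SF CAA

namespace H9FB

open _root_.UZ

theorem dnCS (hBBb : T_BBb) (hQ : T_QI4d) {D : Cx} (hN : ZFm D.N) (hH : D.N D.H)
    (hL : D.N D.L) {F : (ℕ → V) → V} (hF : TN D.N F) : DN D.N (fun u => CS D (F u)) := by
  have h1 : DN D.N (fun u => F u ∈ D.H) := DN.mem hN hF (TN.cst hH)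
  have h2 : DN D.N (fun u => Cld D.L (F u)) :=
    DN.of2 hN (P := fun _ x y => Cld x y) hBBb.2.2.1 (TN.cst hL) hF
  have h3 : DN D.N (fun u => ∀ i ∈ F u, Gl D.L i) := by
    have h4 : DN D.N (fun u => Gl D.L (u 0)) :=
      DN.of2 hN (P := fun _ x y => Gl x y) hQ.2.2.2.2.2.2.2.1 (TN.cst hL) (TN.var hN 0)
    exact DN.ball hN hF h4
  refine (h1.and hN (h2.and hN h3)).congr fun u hu => ?_
  exact ⟨fun h => ⟨h.1, h.2.1, h.2.2⟩, fun h => ⟨h.h, h.c, h.g⟩⟩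

theorem lN {D : Cx} {κ : V} (hA : Amb D κ) : ZFm D.N ∧ D.N D.H ∧ D.N D.L ∧
    (∀ x ∈ D.H, D.N x) := by
  have hN : ZFm D.N := hA.ok.zfc.toZFCm.toZFm
  have hHN : ∀ x ∈ D.H, D.N x := hN.trans _ hA.ok.hN
  exact ⟨hN, hA.ok.hN, hHN _ hA.ok.lH, hHN⟩

end H9FB

open H9FB _root_.UZ

theorem pf_FB1 (hBBb : T_BBb) (hBBc : T_BBc) (hQ : T_QI4d) : T_FB1 := by
  intro D κ hA b hb
  subst hb
  obtain ⟨hN, hH, hL, hHN⟩ := lN hA
  have hOb : ∀ B, B ∈ D.H.sep (CS D) ↔ CS D B := fun B => by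
    rw [ZFSet.mem_sep]
    exact ⟨fun h => h.2, fun h => ⟨h.h, h⟩⟩
  have hle : ∀ C B, ZFSet.pair C B ∈ (ZFSet.prod (D.H.sep (CS D)) (D.H.sep (CS D))).sep
      (fun z => fst z ⊆ snd z) ↔ CS D C ∧ CS D B ∧ C ⊆ B := fun C B => by
    rw [ZFSet.mem_sep, ZFSet.pair_mem_prod, hOb, hOb, fst_pair, snd_pair, and_assoc]
  have nOb : D.N (D.H.sep (CS D)) := by
    have h := DN.sepN hN (dnCS hBBb hQ hN hH hL (TN.var hN 0)) hH (u := fun _ => D.H)
      (fun _ => hH)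
    exact h
  have nle : D.N ((ZFSet.prod (D.H.sep (CS D)) (D.H.sep (CS D))).sep
      (fun z => fst z ⊆ snd z)) := by
    have h1 : D.N (ZFSet.prod (D.H.sep (CS D)) (D.H.sep (CS D))) :=
      TN.mem hN (TN.prod hN (TN.cst nOb) (TN.cst nOb)) (u := fun _ => D.H) (fun _ => hH)
    exact DN.sepN hN (DN.subset hN (TN.fst hN (TN.var hN 0)) (TN.snd hN (TN.var hN 0))) h1
      (u := fun _ => D.H) (fun _ => hH)
  have hU : D.N (resS (D.H.sep (CS D)) fun B => B) :=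
    TN.mem hN (TN.resS hN (TN.cst nOb) (TN.var hN 0)) (u := fun _ => D.H) (fun _ => hH)
  have hT : D.N (resS (ZFSet.prod D.H (D.H.sep (CS D))) fun z => im (fst z) (snd z)) := by
    have h1 : TN D.N (fun u => im (fst (u 0)) (snd (u 0))) :=
      TN.of2 hN (P := fun _ x y => im x y) hBBc.2.2.2.1 (TN.fst hN (TN.var hN 0))
        (TN.snd hN (TN.var hN 0))
    exact TN.mem hN (TN.resS hN (TN.prod hN (TN.cst hH) (TN.cst nOb)) h1) (u := fun _ => D.H)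
      (fun _ => hH)
  refine ⟨hOb, fun B hB => ?_, fun C B => ?_, fun C B => ?_, fun π B hπ hB => ?_,
    nOb, hU, nle, nle, hT⟩
  · show app (resS (D.H.sep (CS D)) fun B => B) B = B
    rw [app_resS ((hOb B).2 hB)]
  · exact hle C B
  · exact Iff.rfl
  · show app (resS (ZFSet.prod D.H (D.H.sep (CS D))) fun z => im (fst z) (snd z))
      (ZFSet.pair π B) = im π B
    rw [app_resS (ZFSet.pair_mem_prod.2 ⟨hπ, (hOb B).2 hB⟩), fst_pair, snd_pair]

end SE.UZ
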