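import Pool.Agent.H9.UZ.FB1
import Pool.Agent.H41.UZ.Dc

/-! # FB2: the secured facts of the first base system -/

set_option linter.unusedVariables false

open Ordinal Order Set
open scoped ZFSet

namespace SE.UZ

open SF CAA

namespace H9FB

open _root_.UZ

theorem dfbSg (hAI : T_AI) (n : ℕ) : Dfb ZFm (fun M v => SgH M n (v 0) (v 1)) := by
  induction n with
  | zero => exact hAI.2.2.2.2.1
  | succ n ih =>
    have h2 : Dfb ZFm (fun M w => ¬ SgH M n (w 1) (prl (w 2) (w 0))) :=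
      (Dfb.at2 (P := fun M x y => SgH M n x y) ih (Tm.var 1)
        (Tm.at2 (F := fun _ x y => prl x y) hAI.2.2.1 (Tm.var 2) (Tm.var 0))).not
    exact (hAI.1.and h2).ex

/-- the relation which is forced -/
theorem dfbF (hAI : T_AI) (hBBb : T_BBb) : Dfb ZFm (fun M v =>
    ¬ SgH M 2 (ev (v 0) (v 2)) (ev (v 0) (v 1))) := by
  have hev := hBBb.2.2.2.2.1
  exact (Dfb.at2 (P := fun M x y => SgH M 2 x y) (dfbSg hAI 2)
    (Tm.at2 (F := fun _ x y => ev x y) hev (Tm.var 0) (Tm.var 2))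
    (Tm.at2 (F := fun _ x y => ev x y) hev (Tm.var 0) (Tm.var 1))).not

theorem dnSb (hL : Lb) (hQ : T_QI4d) {D : Cx} {κ : V} (hA : Amb D κ) :
    DN D.N (fun u => Sb D (u 0)) := by
  obtain ⟨hN, hH, hLL, hHN⟩ := lN hA
  have hev := hL.BBb.2.2.2.2.1
  have v0 : ∀ i, TN D.N (fun u => u i) := fun i => TN.var hN i
  have c1 : DN D.N (fun u => CS D (u 3)) := dnCS hL.BBb hQ hN hH hLL (v0 3)
  have c2 : DN D.N (fun u => u 2 ∈ Pos D.L (u 3)) :=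
    DN.mem hN (v0 2) (tnP hL hA.ok (v0 3))
  have c3 : ∀ i, DN D.N (fun u => Nam D.L (u 3) (u i)) := fun i =>
    DN.of3 hN (P := fun _ x y z => Nam x y z) hL.BBb.1 (TN.cst hLL) (v0 3) (v0 i)
  have c4 : DN D.N (fun u => u 4 = ZFSet.pair (u 3) (ZFSet.pair (u 2)
      (ZFSet.pair (u 1) (u 0)))) :=
    DN.eq hN (v0 4) (TN.pair hN (v0 3) (TN.pair hN (v0 2) (TN.pair hN (v0 1) (v0 0))))
  have hS : Dfb ZFm (fun M v => v 3 ∈ v 0 → ¬ SgH M 2 (ev (v 0) (v 2)) (ev (v 0) (v 1))) :=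
    (Dfb.mem (Tm.var 3) (Tm.var 0)).imp (dfbF hL.AI hL.BBb)
  have c5 := Dc.dnG (C := fun _ => True) hL hA.ok (v0 3) (DN.cst hN True)
    (Dc.base (D := D) (C := fun _ => True) hL hA.ok (v0 3) hS)
  have h := ((c1.and hN (c2.and hN ((c3 1).and hN ((c3 0).and hN (c4.and hN c5)))))).ex.ex.ex.ex
  refine h.congr fun u hu => ?_
  constructor
  · rintro ⟨B, hB, p, hp, a, ha, x, hx, h1, h2, h3, h4, h5, h6, h7, h8⟩
    exact ⟨B, p, a, x, h1, h2, ⟨ha, h3⟩, ⟨hx, h4⟩, h5, fun G hG hpG => h8 G hG hpG⟩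
  · rintro ⟨B, p, a, x, h1, h2, ⟨ha, h3⟩, ⟨hx, h4⟩, h5, h6⟩
    have hB : D.N B := hHN _ h1.h
    have hp : D.N p := hN.trans _ ((hL.BJ D hA.ok).2.2.2.1 B hB).1 p h2
    exact ⟨B, hB, p, hp, a, ha, x, hx, h1, h2, h3, h4, h5, ⟨h1.h, h1.c⟩, trivial,
      fun G hG hpG => h6 G hG hpG⟩

end H9FB

open H9FB _root_.UZ

theorem pf_FB2 (hL : Lb) (hQ : T_QI4d) (hQRN : T_QRN) (hFB1 : T_FB1) : T_FB2 := by
  intro D κ hA b hb
  subst hb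
  obtain ⟨hN, hH, hLL, hHN⟩ := lN hA
  obtain ⟨-, -, -, hpr, hP, -⟩ := hL.BR D hA.ok
  have hSH : ∀ z, Sb D z → z ∈ D.H := by
    rintro z ⟨B, p, a, x, h1, h2, ⟨ha, h3⟩, ⟨hx, h4⟩, rfl, -⟩
    obtain ⟨-, -, h5, -, h6⟩ := hP B h1.h
    exact (hpr _ h1.h _ (hpr _ (h5 p h2) _ (hpr _ (h6 a ha h3) _ (h6 x hx h4)).1).1).1
  have hex : ∃ X : V, ∀ z, z ∈ X ↔ Sb D z := ⟨D.H.sep (Sb D), fun z => by
    rw [ZFSet.mem_sep]
    exact ⟨fun h => h.2, fun h => ⟨hSH z h, h⟩⟩⟩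
  have hmem : ∀ z, z ∈ stf (Sb D) ↔ Sb D z := by
    unfold stf
    rw [dif_pos hex]
    exact Classical.choose_spec hex
  have heq : stf (Sb D) = D.H.sep (Sb D) := by
    ext z
    rw [hmem, ZFSet.mem_sep]
    exact ⟨fun h => ⟨hSH z h, h⟩, fun h => h.2⟩
  have hScN : D.N (stf (Sb D)) := by
    rw [heq]
    exact DN.sepN hN (dnSb hL hQ hA) hH (u := fun _ => D.H) (fun _ => hH)
  refine ⟨hScN, hmem, fun B hB G hG a x => ?_⟩
  have hBN := hHN _ hB.h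
  have htr : Tr B := fun i hi => (hB.c i hi).2
  obtain ⟨hnm, -⟩ := hQRN D hA.ok B G B hBN hB.c hG hBN (fun _ h => h) htr
  constructor
  · rintro ⟨p, hp, a', x', h, rfl, rfl⟩
    obtain ⟨B', p', a'', x'', h1, h2, h3, h4, h5, h6⟩ := (hmem _).1 h
    obtain ⟨e1, h5⟩ := ZFSet.pair_injective h5
    obtain ⟨e2, h5⟩ := ZFSet.pair_injective h5
    obtain ⟨e3, e4⟩ := ZFSet.pair_injective h5
    subst e1 e2 e3 e4
    exact ⟨(hnm _).2 ⟨a', h3.1, h3.2, rfl⟩, (hnm _).2 ⟨x', h4.1, h4.2, rfl⟩, h6 G hG hp⟩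
  · rintro ⟨ha, hx, hs⟩
    obtain ⟨A, hAN, hAm, rfl⟩ := (hnm _).1 ha
    obtain ⟨X, hXN, hXm, rfl⟩ := (hnm _).1 hx
    have hdec := Dc.dec (D := D) (C := fun _ => True) (r := fun u => u 2) hL hA.ok
      (TN.var hN 2) (Dc.base hL hA.ok (TN.var hN 2) (dfbF hL.AI hL.BBb))
      (u := cons X (cons A fun _ => B)) (In.cons (In.cons (fun _ => hBN) hAN) hXN)
      ⟨hB.h, hB.c⟩ trivial
    obtain ⟨O, hO, h⟩ := hdec
    obtain ⟨p, hp, hpO⟩ := (h G hG).1 hs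
    obtain ⟨-, h2⟩ := (hL.BJ D hA.ok).2.2.2.2 B hBN hB.c
    exact ⟨p, hp, A, X, (hmem _).2 ⟨B, p, A, X, hB, (h2 G hG).2.1.1 hp, ⟨hAN, hAm⟩,
      ⟨hXN, hXm⟩, rfl, fun G' hG' hpG' => (h G' hG').2 ⟨p, hpG', hpO⟩⟩, rfl, rfl⟩

end SE.UZ
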