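import Pool.Agent.H9.UZ.Tar

/-! # FA: the main theorem -/

set_option linter.unusedVariables false

open Ordinal Order Set
open scoped ZFSet

namespace SE.UZ

open SF CAA

theorem pf_FA (hL0 : T_L0) (hAMB : T_AMB) (hFA2 : T_FA2) (hKO : ∀ W, ZFC W → UniH W 1)
    (hPTU : T_PTU) (hBJ : T_BJ) (hBD : T_BD) : T_FA := by
  refine ⟨hL0, ?_⟩
  -- the case `n + 2 ≤ m`
  have key : ∀ n m : ℕ, 1 ≤ n → n ≠ 2 → n + 2 ≤ m →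
      ∀ τ : Ordinal.{0}, ((LA ∅ τ : V) : Set V).Countable → ZFC (· ∈ LA ∅ τ) →
      ∃ c ∈ LA ∅ τ, ∃ r ∈ LA ∅ τ, IsPo c r ∧
        ∀ G, Gen (· ∈ LA ∅ τ) c r G →
          PUF.PiUniformization (Ext (· ∈ LA ∅ τ) G) n ∧
          PUF.PiUniformization (Ext (· ∈ LA ∅ τ) G) m := by
    intro n m hn hn2 hnm τ hc hz
    obtain ⟨H, L, κ, hA⟩ := hAMB τ hc hz
    obtain ⟨Λ, hΛ, hcl, h⟩ := hFA2 _ κ hA n m (by omega) hnm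
    obtain ⟨-, -, -, hPR, hmain⟩ := hBJ _ hA.ok
    obtain ⟨hP, hR⟩ := hPR Λ hΛ
    refine ⟨Pos L Λ, hP, Odr L Λ, hR, hBD.2.2.2.2.2.2.2 _ _, ?_⟩
    intro G hG
    obtain ⟨⟨hzfc, -⟩, -⟩ := (hmain Λ hΛ hcl).2 G hG
    obtain ⟨h1, h2⟩ := h G hG
    refine ⟨?_, hPTU _ hzfc.toZFCm.toZFm m h1⟩
    by_cases h3 : 3 ≤ n
    · exact hPTU _ hzfc.toZFCm.toZFm n (h2 h3)
    · have h4 : n = 1 := by omega
      subst h4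
      exact hPTU _ hzfc.toZFCm.toZFm 1 (hKO _ hzfc)
  intro n m hn hm hn2 hm2 hnm τ hc hz
  rcases hnm with h | h
  · exact key n m hn hn2 h τ hc hz
  · obtain ⟨c, hc1, r, hr, hp, h1⟩ := key m n hm hm2 h τ hc hz
    exact ⟨c, hc1, r, hr, hp, fun G hG => ⟨(h1 G hG).2, (h1 G hG).1⟩⟩

end SE.UZ
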