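import Pool.Agent.H9.UZ.Tar

/-! # FA2: two levels -/

set_option linter.unusedVariables false

open Ordinal Order Set
open scoped ZFSet

namespace SE.UZ

open SF CAA

namespace H9FA

theorem frn_l (D : Cx) (b : BS) (n : ℕ) : (frn D b n).l = b.l + n ∧ (frn D b n).S = b.S := by
  induction n with
  | zero => exact ⟨rfl, rfl⟩
  | succ n ih => exact ⟨by show (frn D b n).l + 1 = _; rw [ih.1]; omega, ih.2⟩

theorem frn_ok (hFr : ∀ (D : Cx) (κ : V), Amb D κ → ∀ b : BS, b.Ok D κ → (b.Fr D).Ok D κ)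
    {D : Cx} {κ : V} (hA : Amb D κ) {b : BS} (hb : b.Ok D κ) (n : ℕ) : (frn D b n).Ok D κ := by
  induction n with
  | zero => exact hb
  | succ n ih => exact hFr D κ hA _ ih

end H9FA

open H9FA

theorem pf_FA2 (hFr : ∀ (D : Cx) (κ : V), Amb D κ → ∀ b : BS, b.Ok D κ → (b.Fr D).Ok D κ)
    (hPr : ∀ (D : Cx) (κ : V), Amb D κ → ∀ b : BS, b.Ok D κ → (b.Pr D κ).Ok D κ)
    (hFB : T_FB) (hFA1 : T_FA1) : T_FA2 := by
  intro D κ hA n m hm hnm
  by_cases hn : 3 ≤ n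
  · -- three steps
    have e1 := frn_l D (fbs D) (n - 3)
    have k1 := frn_ok hFr hA (hFB D κ hA) (n - 3)
    have k2 := hPr D κ hA _ k1
    have e3 := frn_l D ((frn D (fbs D) (n - 3)).Pr D κ) (m - n - 2)
    have k3 := frn_ok hFr hA k2 (m - n - 2)
    have k4 := hPr D κ hA _ k3
    obtain ⟨Λ, h1, h2, h3⟩ := hFA1 D κ hA _ k3 k4
    have el : (frn D (fbs D) (n - 3)).l = n := by
      rw [e1.1]
      show 3 + (n - 3) = n
      omega
    have el2 : (frn D ((frn D (fbs D) (n - 3)).Pr D κ) (m - n - 2)).l = m := by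
      rw [e3.1]
      show (frn D (fbs D) (n - 3)).l + 2 + (m - n - 2) = m
      rw [el]
      omega
    refine ⟨Λ, h1, h2, fun G hG => ⟨h3 G hG m (Or.inr el2.symm), fun _ => h3 G hG n (Or.inl ?_)⟩⟩
    rw [e3.2]
    exact Or.inr el.symm
  · have e1 := frn_l D (fbs D) (m - 3)
    have k1 := frn_ok hFr hA (hFB D κ hA) (m - 3)
    have k2 := hPr D κ hA _ k1
    obtain ⟨Λ, h1, h2, h3⟩ := hFA1 D κ hA _ k1 k2
    have el : (frn D (fbs D) (m - 3)).l = m := by
      rw [e1.1]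
      show 3 + (m - 3) = m
      omega
    exact ⟨Λ, h1, h2, fun G hG => ⟨h3 G hG m (Or.inr el.symm), fun h => absurd h hn⟩⟩

end SE.UZ
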