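import Pool.Agent.H9.UZ.Tar

/-! # FB: the first base system -/

set_option linter.unusedVariables false

open Ordinal Order Set
open scoped ZFSet

namespace SE.UZ

open SF CAA

theorem pf_FB (h1 : T_FB1) (h2 : T_FB2) (h3 : T_FB3) (h4 : T_FB4) (h5 : T_FB5) (h7 : T_FB7) :
    T_FB := by
  intro D κ hA
  obtain ⟨hOb, hu, hle, hRi, hT, nOb, nU, nL, nR, nT⟩ := h1 D κ hA _ rfl
  obtain ⟨nS, hSc, hSe⟩ := h2 D κ hA _ rfl
  obtain ⟨he, hui, hun⟩ := h3 D κ hA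
  obtain ⟨t1, t2, t3⟩ := h5 D κ hA _ rfl
  obtain ⟨s1, s2⟩ := h7 D κ hA _ rfl
  constructor
  · exact le_refl 3
  · exact fun k hk => absurd hk id
  · exact nOb
  · exact nU
  · exact nL
  · exact nR
  · exact nT
  · exact nS
  · intro B hB
    rw [hu B ((hOb B).1 hB)]
    exact (hOb B).1 hB
  · exact fun B hB i hi e hS => absurd hS id
  · intro C B h
    obtain ⟨a, b, c⟩ := (hle C B).1 h
    exact ⟨(hOb C).2 a, (hOb B).2 b, by rw [hu C a, hu B b]; exact c⟩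
  · intro B hB
    exact (hle B B).2 ⟨(hOb B).1 hB, (hOb B).1 hB, fun _ h => h⟩
  · intro C B A hCB hBA
    obtain ⟨a, b, c⟩ := (hle C B).1 hCB
    obtain ⟨a', b', c'⟩ := (hle B A).1 hBA
    exact (hle C A).2 ⟨a, b', fun _ h => c' (c h)⟩
  · intro C C' B h h' hs
    obtain ⟨a, b, c⟩ := (hle C B).1 h
    obtain ⟨a', b', c'⟩ := (hle C' B).1 h'
    rw [hu C a, hu C' a'] at hs
    exact (hle C C').2 ⟨a, a', hs⟩
  · intro C C' B h h'
    obtain ⟨a, b, c⟩ := (hle C B).1 h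
    obtain ⟨a', b', c'⟩ := (hle C' B).1 h'
    have hi := (hui C C' a a').1
    refine ⟨C ∩ C', (hle _ _).2 ⟨hi, b, fun _ h => c (ZFSet.mem_inter.1 h).1⟩, ?_⟩
    rw [hu _ hi, hu C a, hu C' a']
  · exact t1
  · exact t2
  · exact t3
  · intro I F hAg Z hZ
    have hF : ∀ v ∈ I, CS D (app F v) := fun v hv => (hOb _).1 (hAg.o v hv)
    obtain ⟨ρ, hρ, hm⟩ := hun I F hAg.h hAg.n hF
    refine ⟨ρ, (hOb ρ).2 hρ, fun v hv => (hRi _ _).2 ((hle _ _).2 ⟨hF v hv, hρ, fun i hi =>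
      (hm i).2 ⟨v, hv, hi⟩⟩), fun k hk hk' => ?_⟩
    rw [hu ρ hρ] at hk
    obtain ⟨v, hv, h⟩ := (hm k).1 hk
    have h8 := hk' v hv
    rw [hu _ (hF v hv)] at h8
    exact absurd h h8
  · intro C B h
    have h' := (hRi C B).1 h
    refine ⟨h', fun C0 hC0 => (hRi _ _).2 ?_⟩
    obtain ⟨a, b, c⟩ := (hle C B).1 h'
    obtain ⟨a', b', c'⟩ := (hle C0 C).1 hC0
    exact (hle _ _).2 ⟨a', b, fun _ h => c (c' h)⟩
  · intro B hB Y hYN hY e he' τ hτ u hu' Z hZ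
    have hBC := (hOb B).1 hB
    rw [hu B hBC] at hY
    obtain ⟨i, i1, i2, i3, i4, i5, i6, i7, i8⟩ := h4 D κ hA B hBC Y hYN hY e τ hτ u hu' Z hZ
    refine ⟨insert i B, i, (hle _ _).2 ⟨hBC, i3, fun x hx => ZFSet.mem_insert_iff.2 (Or.inr hx)⟩,
      ?_, ?_, i2, i4, i5, i6, ?_, ?_, ?_⟩
    · rw [hu _ i3]
      exact ZFSet.mem_insert_iff.2 (Or.inl rfl)
    · rw [hu _ hBC]
      exact i1
    · rw [hu _ hBC, i7]
    · intro G hG
      rw [i8]
    · intro k hk hk' hki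
      rw [hu _ i3] at hk
      rw [hu _ hBC] at hk'
      rcases ZFSet.mem_insert_iff.1 hk with h | h
      · exact absurd h hki
      · exact absurd h hk'
  · intro B p a x h
    obtain ⟨B', p', a', x', k1, k2, k3, k4, k5, -⟩ := (hSc _).1 h
    obtain ⟨e1, k5⟩ := ZFSet.pair_injective k5
    obtain ⟨e2, k5⟩ := ZFSet.pair_injective k5
    obtain ⟨e3, e4⟩ := ZFSet.pair_injective k5
    subst e1 e2 e3 e4
    rw [hu B k1]
    exact ⟨(hOb B).2 k1, k2, k3, k4⟩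
  · exact s1
  · intro F hF G hG
    obtain ⟨r1, r2⟩ := s2 F hF G hG
    exact ⟨r1, r2, fun k hk => absurd hk id⟩

end SE.UZ
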