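import Pool.Agent.H45.UZ.TarA
import Pool.Agent.H1.UZ.TarPC
import Pool.Agent.H9.SE.TarL

/-!
# MP_f6fd33_lc: the ambient context (AM), the first base system (FB), the final assembly (FA).
Definitions and targets
-/

set_option linter.unusedVariables false

open Ordinal Order Set
open scoped ZFSet

namespace SE.UZ

open SF CAA

/-! ## AM: the ambient context -/

/-- the ground model, with two more properties: all sets in `L_κ` are images of `L_μ`, and `μ` is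
regular -/
structure Gn2 (τ μ κ : Ordinal.{0}) : Prop where
  g : Gnd τ μ κ
  sx : ∀ x ∈ LA ∅ κ, x = ∅ ∨ ∃ f ∈ LA ∅ τ, Onto f (LA ∅ μ) x
  bf : ∀ y ∈ LA ∅ μ, ∀ f ∈ LA ∅ τ, ZFSet.IsFunc y μ.toZFSet f →
    ∃ γ < μ, ∀ u ∈ y, app f u ∈ γ.toZFSet

/-- AM1: the ground model -/
def T_AM1 : Prop := ∀ τ : Ordinal.{0}, ((LA ∅ τ : V) : Set V).Countable → ZFC (· ∈ LA ∅ τ) →
  ∃ μ κ, Gn2 τ μ κ

/-- AM2: countable subsets of `L_μ` are elements of `L_μ` -/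
def T_AM2 : Prop := ∀ τ μ κ, Gn2 τ μ κ → ∀ x ∈ LA ∅ τ, Ctbl (· ∈ LA ∅ τ) x → x ⊆ LA ∅ μ →
  x ∈ LA ∅ μ

/-- the name over `ρ` which is determined by a set `A` of pairs `(r, c)` (`r` forces that `c` is an
initial segment) -/
noncomputable def cln (L ρ A : V) : V := (ZFSet.prod (Pos L ρ) sq).sep fun z =>
  ∀ q ∈ Pos L ρ, Le q (fst z) → ∃ q' ∈ Pos L ρ, Le q' q ∧
    ∃ w ∈ A, Le q' (fst w) ∧ snd z ⊆ snd w

/-- AM3: full names are determined by countable sets -/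
def T_AM3 : Prop := Tm ZFm (fun _ v => cln (v 0) (v 1) (v 2)) ∧
  ∀ D : Cx, D.Ok → ∀ ρ, D.N ρ → Cld D.L ρ → ∀ Y, D.N Y → Nam D.L ρ Y →
    ∃ A, Ctbl D.N A ∧ A ⊆ ZFSet.prod (D.P ρ) sq ∧ Y = cln D.L ρ A

/-- AM4: the set of the full names over `ρ` -/
def T_AM4 : Prop := ∀ τ μ κ, Gn2 τ μ κ → ∀ D : Cx, D.Ok → D.N = (· ∈ LA ∅ τ) →
  D.H = LA ∅ κ → ∀ ρ ∈ D.H, Cld D.L ρ →
    ∃ S ∈ D.H, ∀ Y, Y ∈ S ↔ D.N Y ∧ Nam D.L ρ Y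

/-- AM: the ambient context exists -/
def T_AMB : Prop := ∀ τ : Ordinal.{0}, ((LA ∅ τ : V) : Set V).Countable → ZFC (· ∈ LA ∅ τ) →
  ∃ H L κ : V, Amb ⟨(· ∈ LA ∅ τ), H, L, fun _ => ∅⟩ κ

/-! ## FB: the first base system -/

/-- elements of the set of the secured facts -/
def Sb (D : Cx) (z : V) : Prop := ∃ B p a x, CS D B ∧ p ∈ D.P B ∧ (D.N a ∧ Nam D.L B a) ∧
  (D.N x ∧ Nam D.L B x) ∧ z = ZFSet.pair B (ZFSet.pair p (ZFSet.pair a x)) ∧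
  ∀ G, D.Gn B G → p ∈ G → ¬ SgH (D.W G) 2 (ev G a) (ev G x)

/-- the first base system -/
noncomputable def fbs (D : Cx) : BS where
  l := 3
  S := fun _ => False
  Ob := D.H.sep (CS D)
  U := resS (D.H.sep (CS D)) fun B => B
  le := (ZFSet.prod (D.H.sep (CS D)) (D.H.sep (CS D))).sep fun z => fst z ⊆ snd z
  Rc := (ZFSet.prod (D.H.sep (CS D)) (D.H.sep (CS D))).sep fun z => fst z ⊆ snd z
  tr := resS (ZFSet.prod D.H (D.H.sep (CS D))) fun z => im (fst z) (snd z)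
  Sc := stf (Sb D)

/-- FB1: the components of the first base system -/
def T_FB1 : Prop := ∀ (D : Cx) κ, Amb D κ → ∀ b, b = fbs D →
  (∀ B, B ∈ b.Ob ↔ CS D B) ∧ (∀ B, CS D B → b.u B = B) ∧
  (∀ C B, b.Le C B ↔ CS D C ∧ CS D B ∧ C ⊆ B) ∧ (∀ C B, b.Ri C B ↔ b.Le C B) ∧
  (∀ π B, π ∈ D.H → CS D B → b.T π B = im π B) ∧
  (D.N b.Ob ∧ D.N b.U ∧ D.N b.le ∧ D.N b.Rc ∧ D.N b.tr)

/-- FB2: the secured facts of the first base system -/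
def T_FB2 : Prop := ∀ (D : Cx) κ, Amb D κ → ∀ b, b = fbs D → D.N b.Sc ∧
  (∀ z, z ∈ b.Sc ↔ Sb D z) ∧
  ∀ B, CS D B → ∀ G, D.Gn B G → ∀ a x,
    (b.Se B G a x ↔ RR D B G a ∧ RR D B G x ∧ ¬ SgH (D.W G) 2 a x)

/-- FB3: closed sets of labels: unions, intersections, the empty set -/
def T_FB3 : Prop := ∀ (D : Cx) κ, Amb D κ → CS D ∅ ∧
  (∀ ρ ρ', CS D ρ → CS D ρ' → CS D (ρ ∩ ρ') ∧ CS D (ρ ∪ ρ')) ∧
  ∀ I F, I ∈ D.H → D.N F → (∀ v ∈ I, CS D (app F v)) →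
    ∃ ρ, CS D ρ ∧ ∀ i, i ∈ ρ ↔ ∃ v ∈ I, i ∈ app F v

/-- FB4: new labels -/
def T_FB4 : Prop := ∀ (D : Cx) κ, Amb D κ → ∀ B, CS D B → ∀ Y, D.N Y → Nam D.L B Y → ∀ e : ℕ,
  ∀ τ ∈ D.H, ∀ u ∈ D.H, ∀ Z ∈ D.H, ∃ i, i ∉ B ∧ i ∉ Z ∧ CS D (insert i B) ∧
    kd i = nS e ∧ tm i = τ ∧ vw i = u ∧ lS i = B ∧ lZ i = Y

/-- FB5: transport -/
def T_FB5 : Prop := ∀ (D : Cx) κ, Amb D κ → ∀ b, b = fbs D →
  (∀ B ∈ b.Ob, ∀ π ρ', Isl D b.l b.S π (b.u B) ρ' → b.T π B ∈ b.Ob ∧ b.u (b.T π B) = ρ' ∧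
    b.T (inv π) (b.T π B) = B ∧ ∀ C, b.Le C B → b.Le (b.T (rst (b.u C) π) C) (b.T π B)) ∧
  (∀ B ∈ b.Ob, b.T (idm (b.u B)) B = B) ∧
  ∀ B ∈ b.Ob, ∀ π ρ', Isl D b.l b.S π (b.u B) ρ' → ∀ G, D.Gn (b.u B) G → ∀ a x,
    (b.Se B G a x ↔ b.Se (b.T π B) (gi D π ρ' G) a x)

/-- FB6: the names of coded reals -/
def T_FB6 : Prop := ∀ (D : Cx) κ, Amb D κ → ∀ ρ, D.N ρ → Cld D.L ρ → (∀ i ∈ ρ, Gl D.L i) →
  ∀ G, D.Gn ρ G → (∀ i ∈ ρ, (kd i = nS 3 → ev G (lY i) = ev G (lZ i)) ∧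
    (kd i ≠ nS 3 → ev G (lY i) = kc 0)) ∧
  ∀ z z', D.W G z → Rl z → D.W G z' → Rl z' →
    (Dk (D.W G) D.L 0 (prl z z') ↔ ∃ i ∈ ρ, kd i = nS 3 ∧ ev G (lZ i) = prl z z')

/-- FB7: absoluteness and truth -/
def T_FB7 : Prop := ∀ (D : Cx) κ, Amb D κ → ∀ b, b = fbs D →
  (∀ C B, b.Le C B → ∀ G, D.Gn (b.u B) G → ∀ a x, RR D (b.u C) G a → RR D (b.u C) G x →
    (b.Se C G a x ↔ b.Se B G a x)) ∧
  ∀ F, b.Ch D κ F → ∀ G, D.Gn (b.un κ F) G →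
    (∀ ξ ∈ κ, ∀ a x, RR D (b.u (app F ξ)) G a → RR D (b.u (app F ξ)) G x →
      (¬ SgH (D.W G) (b.l - 1) a x ↔ b.Se (app F ξ) G a x)) ∧
    ∀ z z', D.W G z → Rl z → D.W G z' → Rl z' →
      (Dk (D.W G) D.L (b.l - 3) (prl z z') ↔
        ∃ i ∈ b.un κ F, kd i = SF.nS b.l ∧ ev G (lZ i) = prl z z')

/-- FB: the first base system -/
def T_FB : Prop := ∀ (D : Cx) κ, Amb D κ → (fbs D).Ok D κ

/-! ## FA: the final assembly -/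

/-- iterating the free functor -/
noncomputable def frn (D : Cx) (b : BS) : ℕ → BS
  | 0 => b
  | n + 1 => (frn D b n).Fr D

/-- FA1: a base system of level `l` with a given type of levels `S` gives a forcing -/
def T_FA1 : Prop := ∀ (D : Cx) κ, Amb D κ → ∀ b : BS, b.Ok D κ → (b.Pr D κ).Ok D κ →
  ∃ Λ, D.N Λ ∧ Cld D.L Λ ∧ ∀ G, D.Gn Λ G → ∀ k, b.S' k → UniH (D.W G) k

/-- FA2: two non adjacent levels at least `3` -/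
def T_FA2 : Prop := ∀ (D : Cx) κ, Amb D κ → ∀ n m : ℕ, 3 ≤ m → (n + 2 ≤ m) → ∃ Λ, D.N Λ ∧
  Cld D.L Λ ∧ ∀ G, D.Gn Λ G → UniH (D.W G) m ∧ (3 ≤ n → UniH (D.W G) n)

/-- FA: the main theorem -/
def T_FA : Prop := PUF.Goal

end SE.UZ
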